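import Pool.Agent.helper91.ADV.SpecL

set_option autoImplicit false

/-! Row adv:LPB (MP_069684_lc): placing blocks into an input. -/

namespace Pool.Agent.ADV

open Finset Pool.Agent.helper55.NT Pool.Agent.LNB Pool.Agent.NG Pool.Agent.PB Pool.Agent.PC

theorem LPB : LPB_stmt := by
  intro Z M n e r L hM hok he hr hL c
  have hN := nB_pos e r
  have hzero : ∀ {e' r' : ℕ}, OkD e' r' → ¬ Z.h e' r' (fun _ => false) = true := by
    intro e' r' h h0
    rw [Z.zero e' r' h] at h0
    exact Bool.false_ne_true h0
  -- inside the region
  have hin : ∀ l, (l + 1) * nB e r ≤ wd M → ∀ k : Fin (nB e r),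
      blk M (place M n e r L c) e r l k = if l < L then c l k else false := by
    intro l hl k
    have hk : (k : ℕ) < nB e r := k.2
    have hreg := region he hr
    have h4 : (l + 1) * nB e r = l * nB e r + nB e r := by ring
    have h1 : bs M e r + l * nB e r + (k : ℕ) < n := by omega
    unfold blk Pool.Agent.NG.get
    rw [dif_pos h1]
    unfold place
    have e1 : bs M e r + l * nB e r + (k : ℕ) - bs M e r = nB e r * l + (k : ℕ) := by
      rw [mul_comm (nB e r) l]
      omega
    have e2 : (nB e r * l + (k : ℕ)) / nB e r = l := by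
      rw [Nat.mul_add_div hN, Nat.div_eq_of_lt hk, add_zero]
    have e3 : (nB e r * l + (k : ℕ)) % nB e r = (k : ℕ) := by
      rw [Nat.mul_add_mod, Nat.mod_eq_of_lt hk]
    by_cases hlL : l < L
    · rw [if_pos (by
        refine ⟨by simp only []; omega, ?_⟩
        simp only [e1, e2]
        exact hlL), if_pos hlL]
      simp only [e1, e2, e3]
    · rw [if_neg (by
        rintro ⟨_, h⟩
        simp only [e1, e2] at h
        exact hlL h), if_neg hlL]
  -- outside
  have hout : ∀ e' r' l, (e', r') ≠ (e, r) → e' < sc M → r' < sc M → (l + 1) * nB e' r' ≤ wd M →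
      ∀ k : Fin (nB e' r'), blk M (place M n e r L c) e' r' l k = false := by
    intro e' r' l hne he' hr' hl k
    have hk : (k : ℕ) < nB e' r' := k.2
    have hne2 : e' * sc M + r' ≠ e * sc M + r := by
      intro h
      apply hne
      have hs : 0 < sc M := by unfold sc; omega
      have h1 : (e' * sc M + r') / sc M = e' := by
        rw [mul_comm, Nat.mul_add_div hs, Nat.div_eq_of_lt hr', add_zero]
      have h2 : (e * sc M + r) / sc M = e := by
        rw [mul_comm, Nat.mul_add_div hs, Nat.div_eq_of_lt hr, add_zero]
      have h3 : e' = e := by rw [← h1, h, h2]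
      subst h3
      have h4 : r' = r := by omega
      rw [h4]
    unfold blk Pool.Agent.NG.get
    split_ifs with h1
    · unfold place
      rw [if_neg]
      rintro ⟨h2, h3⟩
      simp only [] at h2 h3
      have h4 : (l + 1) * nB e' r' = l * nB e' r' + nB e' r' := by ring
      rcases lt_or_gt_of_ne hne2 with hlt | hgt
      · have h5 : (e' * sc M + r' + 1) * wd M ≤ (e * sc M + r) * wd M := Nat.mul_le_mul_right _ hlt
        have h6 : (e' * sc M + r' + 1) * wd M = bs M e' r' + wd M := by unfold bs; ring
        have h7 : (e * sc M + r) * wd M = bs M e r := rfl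
        omega
      · have h5 : (e * sc M + r + 1) * wd M ≤ (e' * sc M + r') * wd M := Nat.mul_le_mul_right _ hgt
        have h6 : (e * sc M + r + 1) * wd M = bs M e r + wd M := by unfold bs; ring
        have h7 : (e' * sc M + r') * wd M = bs M e' r' := rfl
        have h8 : L ≤ (bs M e' r' + l * nB e' r' + (k : ℕ) - bs M e r) / nB e r := by
          rw [Nat.le_div_iff_mul_le hN]
          omega
        omega
    · rfl
  constructor
  · rintro ⟨e', r', l, h0, h1, h2, h3, h4⟩
    by_cases hee : (e', r') = (e, r)
    · obtain ⟨rfl, rfl⟩ := Prod.mk.inj hee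
      have hb : blk M (place M n e' r' L c) e' r' l = fun k => if l < L then c l k else false := by
        funext k
        exact hin l h3 k
      rw [hb] at h4
      by_cases hlL : l < L
      · simp only [if_pos hlL] at h4
        exact ⟨l, hlL, h4⟩
      · simp only [if_neg hlL] at h4
        exact absurd h4 (hzero h0)
    · have hb : blk M (place M n e r L c) e' r' l = fun _ => false := by
        funext k
        exact hout e' r' l hee h1 h2 h3 k
      rw [hb] at h4
      exact absurd h4 (hzero h0)
  · rintro ⟨l, hl, h4⟩
    have h3 : (l + 1) * nB e r ≤ wd M := (Nat.mul_le_mul_right _ hl).trans hL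
    refine ⟨e, r, l, hok, he, hr, h3, ?_⟩
    have hb : blk M (place M n e r L c) e r l = c l := by
      funext k
      rw [hin l h3 k, if_pos hl]
    rw [hb]
    exact h4

end Pool.Agent.ADV
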