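import Pool.Agent.helper93.ADV.SpecU

set_option autoImplicit false

/-! Row adv:TFU (MP_069684_lc): the characterisation of P/Poly by predictors. -/

namespace Pool.Agent.ADV

open Finset Pool.Agent.helper38.Neg Pool.Agent.helper55.NT Pool.Agent.LNB

theorem TFU_nwin (u r n : ℕ) : 1 ≤ nwin u r n ∧ nwin u r n ≤ n + 1 := by
  have hK : 1 ≤ 2 ^ (r + 1) - 1 := by
    have h1 : 2 ^ 1 ≤ 2 ^ (r + 1) := Nat.pow_le_pow_right (by norm_num) (by omega)
    omega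
  unfold nwin
  generalize 2 ^ (r + 1) - 1 = K at hK
  rw [Nat.add_div_right _ (by omega)]
  constructor
  · exact Nat.succ_le_succ (Nat.zero_le _)
  · have h1 : min u n / K ≤ min u n := Nat.div_le_self _ _
    have h2 : min u n ≤ n := min_le_right _ _
    omega

theorem TFU_12 (hUPR : UPR_stmt) (u r : ℕ → ℕ) (A : Lang) (h : InPPoly A) :
    PolyAdv (Few u r) (fun n => 1 / (2 * (nwin (u n) (r n) n : ℝ))) A := by
  obtain ⟨p, hp⟩ := h
  refine ⟨(4 * Polynomial.X + 4) * (2 * (2 * Polynomial.X + 2) ^ 3 + 2 * p + 12) + Polynomial.X + 1, ?_⟩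
  intro n D hD
  obtain ⟨s, hs, C, o, hC⟩ := hp n
  obtain ⟨s', hs', C', o', hF, hA⟩ := hUPR n s (u n) (r n) C o D hD
  have hAn : (fun x => C.val x o = true) = A n := by
    funext x
    exact propext (hC x)
  rw [hAn] at hA
  refine ⟨s', ?_, C', o', hF, hA⟩
  refine hs'.trans ?_
  simp only [Polynomial.eval_add, Polynomial.eval_mul, Polynomial.eval_pow, Polynomial.eval_X, Polynomial.eval_ofNat,
    Polynomial.eval_one]
  have h1 : 2 * s ≤ 2 * p.eval n := Nat.mul_le_mul_left 2 hs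
  have h2 : (4 * n + 4) * (2 * (2 * n + 2) ^ 3 + 2 * s + 12) ≤ (4 * n + 4) * (2 * (2 * n + 2) ^ 3 + 2 * p.eval n + 12) :=
    Nat.mul_le_mul_left _ (by omega)
  omega

theorem TFU_23 (u r : ℕ → ℕ) (A : Lang) (h : PolyAdv (Few u r) (fun n => 1 / (2 * (nwin (u n) (r n) n : ℝ))) A) :
    ∃ q : Polynomial ℕ, PolyAdv Any (fun n => 1 / (((q.eval n : ℕ) : ℝ) + 2)) A := by
  obtain ⟨p, hp⟩ := h
  refine ⟨2 * Polynomial.X, p, ?_⟩
  intro n D hD
  obtain ⟨s, hs, C, o, -, hA⟩ := hp n D hD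
  refine ⟨s, hs, C, o, trivial, le_trans ?_ hA⟩
  obtain ⟨h1, h2⟩ := TFU_nwin (u n) (r n) n
  have h3 : (1 : ℝ) ≤ (nwin (u n) (r n) n : ℝ) := by exact_mod_cast h1
  have h4 : (nwin (u n) (r n) n : ℝ) ≤ (n : ℝ) + 1 := by exact_mod_cast h2
  have h5 : (((2 * Polynomial.X : Polynomial ℕ).eval n : ℕ) : ℝ) = 2 * (n : ℝ) := by
    simp only [Polynomial.eval_mul, Polynomial.eval_X, Polynomial.eval_ofNat]
    push_cast
    ring
  show 1 / ((((2 * Polynomial.X : Polynomial ℕ).eval n : ℕ) : ℝ) + 2) ≤ 1 / (2 * (nwin (u n) (r n) n : ℝ))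
  rw [h5]
  apply one_div_le_one_div_of_le
  · linarith
  · linarith

theorem TFU_31 (hBPP : BPP_stmt) (A : Lang)
    (h : ∃ q : Polynomial ℕ, PolyAdv Any (fun n => 1 / (((q.eval n : ℕ) : ℝ) + 2)) A) : InPPoly A := by
  obtain ⟨q, p, hp⟩ := h
  refine hBPP Any (p + q) A ?_
  intro n D hD
  obtain ⟨s, hs, C, o, -, hA⟩ := hp n D hD
  have e : (p + q).eval n = p.eval n + q.eval n := Polynomial.eval_add
  refine ⟨s, ?_, C, o, trivial, le_trans ?_ hA⟩
  · show s ≤ (p + q).eval n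
    rw [e]
    exact le_trans hs (Nat.le_add_right _ _)
  · show 1 / ((((p + q).eval n : ℕ) : ℝ) + 2) ≤ 1 / (((q.eval n : ℕ) : ℝ) + 2)
    rw [e]
    have h0 : (0 : ℝ) ≤ ((q.eval n : ℕ) : ℝ) := Nat.cast_nonneg _
    have h1 : (0 : ℝ) ≤ ((p.eval n : ℕ) : ℝ) := Nat.cast_nonneg _
    apply one_div_le_one_div_of_le
    · linarith
    · push_cast
      linarith

theorem TFU (hUPR : UPR_stmt) (hBPP : BPP_stmt) : TFU_stmt := by
  intro u r A
  tfae_have 1 → 2 := TFU_12 hUPR u r A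
  tfae_have 2 → 3 := TFU_23 u r A
  tfae_have 3 → 1 := TFU_31 hBPP A
  tfae_finish

end Pool.Agent.ADV
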